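import Pool.Agent.R713.Concrete

/-!
# MP_a7ee28_al: the third element of a Leonard triple need not be a combination of `I, Z, X, ZX`

A counterexample on `V = ℚ²` with `q = 2`.
-/

set_option autoImplicit false
set_option linter.unusedTactic false
set_option linter.unreachableTactic false

namespace Pool.Agent.Results.MP_a7ee28_al.NeitherInSpan

open Pool.Agent.R713 Module Matrix

/-- `X, Xi = X⁻¹, Y, Z` satisfy the equitable relations of `U_q(sl₂)` and leave no proper nonzero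
subspace of `V` invariant. -/
structure IrrEquitable {K V : Type*} [Field K] [AddCommGroup V] [Module K V] (q : K)
    (X Xi Y Z : Module.End K V) : Prop where
  inv : X * Xi = 1
  inv' : Xi * X = 1
  xy : (q - q⁻¹)⁻¹ • (q • (X * Y) - q⁻¹ • (Y * X)) = 1
  yz : (q - q⁻¹)⁻¹ • (q • (Y * Z) - q⁻¹ • (Z * Y)) = 1
  zx : (q - q⁻¹)⁻¹ • (q • (Z * X) - q⁻¹ • (X * Z)) = 1
  irr : ∀ W : Submodule K V,
    (∀ w ∈ W, X w ∈ W ∧ Xi w ∈ W ∧ Y w ∈ W ∧ Z w ∈ W) → W = ⊥ ∨ W = ⊤

/-- `T` is a linear combination of `I, X, Y, X Y` -/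
def Comb {K V : Type*} [Field K] [AddCommGroup V] [Module K V] (X Y T : Module.End K V) : Prop :=
  ∃ a b c e : K, T = a • 1 + b • X + c • Y + e • (X * Y)

/-- antiautomorphisms of `End V` -/
def IsAnti {K V : Type*} [Field K] [AddCommGroup V] [Module K V]
    (σ : Module.End K V ≃ₗ[K] Module.End K V) : Prop :=
  ∀ f g, σ (f * g) = σ g * σ f

def A : Matrix (Fin 2) (Fin 2) ℚ := !![1, 0; 0, -1]

def B : Matrix (Fin 2) (Fin 2) ℚ := !![0, 1; 1, 0]

def C : Matrix (Fin 2) (Fin 2) ℚ := !![7/4, 2; 1, -(7/4)]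

def PY : Matrix (Fin 2) (Fin 2) ℚ := !![1, 1; 1, -1]
def QY : Matrix (Fin 2) (Fin 2) ℚ := !![1/2, 1/2; 1/2, -(1/2)]
def PZ : Matrix (Fin 2) (Fin 2) ℚ := !![4, 1; 1, -2]
def QZ : Matrix (Fin 2) (Fin 2) ℚ := !![2/9, 1/9; 1/9, -(4/9)]

theorem tripleA : DiagTridiag₂ (Matrix.toLin' A) (Matrix.toLin' B) (Matrix.toLin' C) := by
  refine DiagTridiag₂.of_matrix (by norm_num) _ _ _ 1 1 (by rw [mul_one]) ?_ ?_ ?_
  · intro i j hij
    rw [one_mul, mul_one]
    fin_cases i <;> fin_cases j <;> simp [A] at hij ⊢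
  · intro i j
    rw [one_mul, mul_one]
    fin_cases i <;> fin_cases j <;> simp [B]
  · intro i j
    rw [one_mul, mul_one]
    fin_cases i <;> fin_cases j <;> simp [C]

theorem tripleB : DiagTridiag₂ (Matrix.toLin' B) (Matrix.toLin' A) (Matrix.toLin' C) := by
  refine DiagTridiag₂.of_matrix (by norm_num) _ _ _ PY QY ?_ ?_ ?_ ?_
  · ext i j
    fin_cases i <;> fin_cases j <;>
      simp [PY, QY, Matrix.mul_apply, Fin.sum_univ_two] <;> norm_num
  · intro i j hij
    fin_cases i <;> fin_cases j <;>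
      simp [PY, QY, B, Matrix.mul_apply, Fin.sum_univ_two] at hij ⊢
  · intro i j
    fin_cases i <;> fin_cases j <;>
      simp [PY, QY, A, Matrix.mul_apply, Fin.sum_univ_two] <;> norm_num
  · intro i j
    fin_cases i <;> fin_cases j <;>
      simp [PY, QY, C, Matrix.mul_apply, Fin.sum_univ_two] <;> norm_num

theorem tripleC : DiagTridiag₂ (Matrix.toLin' C) (Matrix.toLin' A) (Matrix.toLin' B) := by
  refine DiagTridiag₂.of_matrix (by norm_num) _ _ _ PZ QZ ?_ ?_ ?_ ?_
  · ext i j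
    fin_cases i <;> fin_cases j <;>
      simp [PZ, QZ, Matrix.mul_apply, Fin.sum_univ_two] <;> norm_num
  · intro i j hij
    fin_cases i <;> fin_cases j <;>
      simp [PZ, QZ, C, Matrix.mul_apply, Fin.sum_univ_two] at hij ⊢ <;> norm_num
  · intro i j
    fin_cases i <;> fin_cases j <;>
      simp [PZ, QZ, A, Matrix.mul_apply, Fin.sum_univ_two] <;> norm_num
  · intro i j
    fin_cases i <;> fin_cases j <;>
      simp [PZ, QZ, B, Matrix.mul_apply, Fin.sum_univ_two] <;> norm_num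

def X : Matrix (Fin 2) (Fin 2) ℚ := !![2, 0; 0, 1/2]
def Xi : Matrix (Fin 2) (Fin 2) ℚ := !![1/2, 0; 0, 2]
def Y : Matrix (Fin 2) (Fin 2) ℚ := !![1/2, 0; 3/2, 2]
def Z : Matrix (Fin 2) (Fin 2) ℚ := !![1/2, -(3/2); 0, 2]

theorem lin_mul (M N : Matrix (Fin 2) (Fin 2) ℚ) :
    Matrix.toLin' M * Matrix.toLin' N = Matrix.toLin' (M * N) := by
  rw [Matrix.toLin'_mul]
  rfl

theorem lin_one : (1 : Module.End ℚ (Fin 2 → ℚ)) = Matrix.toLin' 1 := by
  rw [Matrix.toLin'_one]
  rfl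

theorem irrEq : IrrEquitable (2 : ℚ) (Matrix.toLin' X) (Matrix.toLin' Xi) (Matrix.toLin' Y)
    (Matrix.toLin' Z) where
  inv := by
    rw [lin_mul, lin_one]
    congr 1
    ext i j
    fin_cases i <;> fin_cases j <;> simp [X, Xi, Matrix.mul_apply, Fin.sum_univ_two]
  inv' := by
    rw [lin_mul, lin_one]
    congr 1
    ext i j
    fin_cases i <;> fin_cases j <;> simp [X, Xi, Matrix.mul_apply, Fin.sum_univ_two]
  xy := by
    rw [lin_mul, lin_mul, lin_one, ← map_smul, ← map_smul, ← map_sub, ← map_smul]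
    congr 1
    ext i j
    fin_cases i <;> fin_cases j <;> simp [X, Y, Matrix.mul_apply, Fin.sum_univ_two] <;> norm_num
  yz := by
    rw [lin_mul, lin_mul, lin_one, ← map_smul, ← map_smul, ← map_sub, ← map_smul]
    congr 1
    ext i j
    fin_cases i <;> fin_cases j <;> simp [Z, Y, Matrix.mul_apply, Fin.sum_univ_two] <;> norm_num
  zx := by
    rw [lin_mul, lin_mul, lin_one, ← map_smul, ← map_smul, ← map_sub, ← map_smul]
    congr 1
    ext i j
    fin_cases i <;> fin_cases j <;> simp [X, Z, Matrix.mul_apply, Fin.sum_univ_two] <;> norm_num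
  irr := by
    intro W hW
    by_cases h0 : W = ⊥
    · exact Or.inl h0
    · right
      obtain ⟨w, hw, hw0⟩ := Submodule.exists_mem_ne_zero_of_ne_bot h0
      have e0 : (Pi.single 0 (w 0) : Fin 2 → ℚ) ∈ W := by
        have h1 : (Pi.single 0 (w 0) : Fin 2 → ℚ) =
            (2/3 : ℚ) • (Matrix.toLin' X w - (1/2 : ℚ) • w) := by
          ext i
          fin_cases i <;>
            simp [X, Matrix.toLin'_apply, dotProduct, Fin.sum_univ_two, Matrix.vecHead, Matrix.vecTail] <;>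
            ring
        rw [h1]
        exact W.smul_mem _ (W.sub_mem (hW w hw).1 (W.smul_mem _ hw))
      have e1 : (Pi.single 1 (w 1) : Fin 2 → ℚ) ∈ W := by
        have h1 : (Pi.single 1 (w 1) : Fin 2 → ℚ) =
            (-(2/3) : ℚ) • (Matrix.toLin' X w - (2 : ℚ) • w) := by
          ext i
          fin_cases i <;>
            simp [X, Matrix.toLin'_apply, dotProduct, Fin.sum_univ_two, Matrix.vecHead, Matrix.vecTail] <;>
            ring
        rw [h1]
        exact W.smul_mem _ (W.sub_mem (hW w hw).1 (W.smul_mem _ hw))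
      have t0 : (Pi.single 0 1 : Fin 2 → ℚ) ∈ W → (Pi.single 1 1 : Fin 2 → ℚ) ∈ W := by
        intro h
        have h1 : (Pi.single 1 1 : Fin 2 → ℚ) =
            (2/3 : ℚ) • (Matrix.toLin' Y (Pi.single 0 1) - (1/2 : ℚ) • Pi.single 0 1) := by
          ext i
          fin_cases i <;>
            simp [Y, Matrix.toLin'_apply, dotProduct, Fin.sum_univ_two] <;> norm_num
        rw [h1]
        exact W.smul_mem _ (W.sub_mem (hW _ h).2.2.1 (W.smul_mem _ h))
      have t1 : (Pi.single 1 1 : Fin 2 → ℚ) ∈ W → (Pi.single 0 1 : Fin 2 → ℚ) ∈ W := by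
        intro h
        have h1 : (Pi.single 0 1 : Fin 2 → ℚ) =
            (-(2/3) : ℚ) • (Matrix.toLin' Z (Pi.single 1 1) - (2 : ℚ) • Pi.single 1 1) := by
          ext i
          fin_cases i <;>
            simp [Z, Matrix.toLin'_apply, dotProduct, Fin.sum_univ_two] <;> norm_num
        rw [h1]
        exact W.smul_mem _ (W.sub_mem (hW _ h).2.2.2 (W.smul_mem _ h))
      have hboth : (Pi.single 0 1 : Fin 2 → ℚ) ∈ W ∧ (Pi.single 1 1 : Fin 2 → ℚ) ∈ W := by
        by_cases hw1 : w 0 = 0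
        · have hw2 : w 1 ≠ 0 := by
            intro h2
            apply hw0
            ext i
            fin_cases i
            · exact hw1
            · exact h2
          have h3 : (Pi.single 1 1 : Fin 2 → ℚ) = (w 1)⁻¹ • Pi.single 1 (w 1) := by
            ext i
            fin_cases i <;> simp [hw2]
          have h4 : (Pi.single 1 1 : Fin 2 → ℚ) ∈ W := h3 ▸ W.smul_mem _ e1
          exact ⟨t1 h4, h4⟩
        · have h3 : (Pi.single 0 1 : Fin 2 → ℚ) = (w 0)⁻¹ • Pi.single 0 (w 0) := by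
            ext i
            fin_cases i <;> simp [hw1]
          have h4 : (Pi.single 0 1 : Fin 2 → ℚ) ∈ W := h3 ▸ W.smul_mem _ e0
          exact ⟨h4, t0 h4⟩
      rw [eq_top_iff]
      intro x _
      have h5 : x = x 0 • Pi.single 0 1 + x 1 • Pi.single 1 1 := by
        ext i
        fin_cases i <;> simp
      rw [h5]
      exact W.add_mem (W.smul_mem _ hboth.1) (W.smul_mem _ hboth.2)

theorem combA : Comb (Matrix.toLin' X) (Matrix.toLin' Y) (Matrix.toLin' A) := by
  refine ⟨-(5/3), 4/3, 0, 0, ?_⟩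
  rw [zero_smul, zero_smul, add_zero, add_zero, lin_one, ← map_smul, ← map_smul, ← map_add]
  congr 1
  ext i j
  fin_cases i <;> fin_cases j <;> simp [X, A] <;> norm_num

theorem combB : Comb (Matrix.toLin' Y) (Matrix.toLin' Z) (Matrix.toLin' B) := by
  refine ⟨0, 2/3, -(2/3), 0, ?_⟩
  rw [zero_smul, zero_smul, add_zero, zero_add, ← map_smul, ← map_smul, ← map_add]
  congr 1
  ext i j
  fin_cases i <;> fin_cases j <;> simp [Y, Z, B] <;> norm_num

/-- combinations of `I, Z, X, Z X` are upper triangular -/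
theorem comb_upper (T : Module.End ℚ (Fin 2 → ℚ))
    (h : Comb (Matrix.toLin' Z) (Matrix.toLin' X) T) : T (Pi.single 0 1) 1 = 0 := by
  obtain ⟨a, b, c, e, rfl⟩ := h
  simp [lin_mul, Matrix.toLin'_apply, X, Z, dotProduct, Matrix.mul_apply, Fin.sum_univ_two]

theorem not_comb (T : Module.End ℚ (Fin 2 → ℚ)) (hT : T = Matrix.toLin' C) :
    ¬ Comb (Matrix.toLin' Z) (Matrix.toLin' X) T := by
  intro h
  have := comb_upper _ h
  rw [hT] at this
  simp [C, Matrix.toLin'_apply] at this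

theorem not_comb_sigma (σ : Module.End ℚ (Fin 2 → ℚ) ≃ₗ[ℚ] Module.End ℚ (Fin 2 → ℚ))
    (hσ : IsAnti σ) (hA : σ (Matrix.toLin' A) = Matrix.toLin' A) :
    ¬ Comb (Matrix.toLin' Z) (Matrix.toLin' X) (σ (Matrix.toLin' C)) := by
  intro h
  have h1 : σ 1 = 1 := by
    obtain ⟨e, he⟩ := σ.surjective 1
    have h2 := hσ 1 e
    rw [one_mul, he, one_mul] at h2
    exact h2.symm
  have hu := comb_upper _ h
  obtain ⟨M, hM⟩ : ∃ M : Matrix (Fin 2) (Fin 2) ℚ, σ (Matrix.toLin' C) = Matrix.toLin' M :=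
    ⟨LinearMap.toMatrix' (σ (Matrix.toLin' C)), by rw [Matrix.toLin'_toMatrix']⟩
  have hM10 : M 1 0 = 0 := by
    rw [hM] at hu
    simpa using hu
  -- `(1 - A) M (1 + A) = 0`
  have h2 : (1 - Matrix.toLin' A) * Matrix.toLin' M * (1 + Matrix.toLin' A) = 0 := by
    rw [lin_one, ← map_sub, ← map_add, lin_mul, lin_mul]
    have : (1 - A) * M * (1 + A) = 0 := by
      ext i j
      fin_cases i <;> fin_cases j <;>
        simp [A, Matrix.mul_apply, Fin.sum_univ_two, hM10]
    rw [this, map_zero]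
  have h3 : σ ((1 + Matrix.toLin' A) * Matrix.toLin' C * (1 - Matrix.toLin' A)) = 0 := by
    rw [hσ, hσ, map_sub, map_add, h1, hA, hM, ← mul_assoc, h2]
  have h4 : (1 + Matrix.toLin' A) * Matrix.toLin' C * (1 - Matrix.toLin' A) = 0 :=
    σ.injective (by rw [h3, map_zero])
  rw [lin_one, ← map_sub, ← map_add, lin_mul, lin_mul] at h4
  have h5 : (1 + A) * C * (1 - A) = 0 := by
    apply Matrix.toLin'.injective
    rw [h4, map_zero]
  have h6 := congrFun (congrFun h5 0) 1
  simp [A, C, Matrix.mul_apply, Fin.sum_univ_two] at h6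

theorem result : ∃ X Xi Y Z A As Ae : Module.End ℚ (Fin 2 → ℚ),
    IrrEquitable (2 : ℚ) X Xi Y Z ∧ Comb X Y A ∧ Comb Y Z As ∧ LeonardTriple A As Ae ∧
      ¬ Comb Z X Ae ∧
      ∀ σ : Module.End ℚ (Fin 2 → ℚ) ≃ₗ[ℚ] Module.End ℚ (Fin 2 → ℚ), IsAnti σ →
        σ A = A → σ As = As → ¬ Comb Z X (σ Ae) :=
  ⟨_, _, _, _, _, _, _, irrEq, combA, combB, ⟨tripleA, tripleB, tripleC⟩, not_comb _ rfl,
    fun σ hσ h1 _ => not_comb_sigma σ hσ h1⟩

end Pool.Agent.Results.MP_a7ee28_al.NeitherInSpan
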